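import Pool.Agent.Lib.MP_688fd0_co.SQ5.N.Iface

/-!
Row DSTRN (helper74): the quotient `Q = G / C₁` for three involutions. `M = N / C₁` is a central Hall subgroup of
`Q₊ = ker eps`; `D` = the elements of `Q₊` with `x ^ k = 1` is its complement. The `M`-parts `y₁`, `y₂` of `a t`, `t b`
satisfy `y₁ ^ m = y₂ ^ n`, so they are `u ^ i`, `u ^ j` with `i = n / gcd`, `j = m / gcd`; `Q₊` is generated by `a t`
and `t b`, so `u` generates `M`.
-/

set_option autoImplicit false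

namespace Pool.Agent.Lib.MP_688fd0_co.SQ5.N

open Pool.Agent.Lib.MP_688fd0_co.OSF Pool.Agent.Lib.MP_688fd0_co.SQ2 Pool.Agent.Lib.MP_688fd0_co.SQ3
open Pool.Agent.Lib.MP_688fd0_co.SQ4

namespace DSTRN

open Subgroup

theorem cop_of_primes {M i τ : ℕ} (hi : 0 < i) (hiτ : i ≤ 2 * τ) (hp : ∀ p ∈ M.primeFactors, 2 * τ < p)
    (hM : M ≠ 0) : i.Coprime M := by
  by_contra hc
  obtain ⟨p, hpp, hpi, hpM⟩ := Nat.Prime.not_coprime_iff_dvd.1 hc
  have h1 := hp p (Nat.mem_primeFactors.2 ⟨hpp, hpM, hM⟩)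
  have h2 := Nat.le_of_dvd hi hpi
  omega

theorem pow_inj_cop {Q : Type*} [Group Q] {M : Subgroup Q} {N i : ℕ} (hcomm : ∀ x ∈ M, ∀ y ∈ M, x * y = y * x)
    (hN : ∀ x ∈ M, x ^ N = 1) (hc : i.Coprime N) {x y : Q} (hx : x ∈ M) (hy : y ∈ M) (h : x ^ i = y ^ i) : x = y := by
  have h1 : (x * y⁻¹) ^ i = 1 := by
    have h2 : Commute x y⁻¹ := hcomm x hx _ (M.inv_mem hy)
    rw [h2.mul_pow, inv_pow, h, mul_inv_cancel]
  have h2 : (x * y⁻¹) ^ N = 1 := hN _ (M.mul_mem hx (M.inv_mem hy))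
  have h3 : orderOf (x * y⁻¹) = 1 :=
    Nat.eq_one_of_dvd_coprimes hc (orderOf_dvd_of_pow_eq_one h1) (orderOf_dvd_of_pow_eq_one h2)
  exact mul_inv_eq_one.1 (orderOf_eq_one_iff.1 h3)

/-- The even part is generated by `a t` and `t b`. -/
theorem even_gen {Q : Type*} [Group Q] (eps : Q →* ℤˣ) (a t b : Q) (ea : eps a = -1) (et : eps t = -1)
    (eb : eps b = -1) (ia : a * a = 1) (it : t * t = 1) (ib : b * b = 1) (gen : closure {a, t, b} = ⊤) :
    ∀ x, eps x = 1 → x ∈ closure {a * t, t * b} := by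
  set R := closure {a * t, t * b} with hR
  have ht : t⁻¹ = t := inv_eq_of_mul_eq_one_right it
  have ha : a⁻¹ = a := inv_eq_of_mul_eq_one_right ia
  have hb : b⁻¹ = b := inv_eq_of_mul_eq_one_right ib
  have hat : a * t ∈ R := subset_closure (Or.inl rfl)
  have htb : t * b ∈ R := subset_closure (Or.inr rfl)
  have hRe : ∀ x ∈ R, eps x = 1 := by
    intro x hx
    have h1 : R ≤ eps.ker := by
      rw [hR, closure_le]
      rintro _ (rfl | rfl)
      · show eps (a * t) = 1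
        rw [map_mul, ea, et]; decide
      · show eps (t * b) = 1
        rw [map_mul, et, eb]; decide
    exact h1 hx
  -- conjugation by `t`
  have hconj : ∀ x ∈ R, t * x * t ∈ R := by
    intro x hx
    rw [hR] at hx
    induction hx using closure_induction with
    | mem x hx =>
      rcases hx with rfl | rfl
      · have h1 : t * (a * t) * t = (a * t)⁻¹ := by
          rw [mul_inv_rev, ha, ht, ← mul_assoc, mul_assoc (t * a), it, mul_one]
        rw [h1]; exact R.inv_mem hat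
      · have h1 : t * (t * b) * t = (t * b)⁻¹ := by
          rw [mul_inv_rev, hb, ht, ← mul_assoc, it, one_mul]
        rw [h1]; exact R.inv_mem htb
    | one => rw [mul_one, it]; exact R.one_mem
    | mul x y _ _ hx hy =>
      have h1 : t * (x * y) * t = (t * x * t) * (t * y * t) := by
        calc t * (x * y) * t = t * x * (1 : Q) * y * t := by group
          _ = t * x * (t * t) * y * t := by rw [it]
          _ = _ := by group
      rw [h1]; exact R.mul_mem hx hy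
    | inv x _ hx =>
      have h1 : t * x⁻¹ * t = (t * x * t)⁻¹ := by
        rw [mul_inv_rev, mul_inv_rev, ht, ← mul_assoc]
      rw [h1]; exact R.inv_mem hx
  have hall : ∀ x : Q, x ∈ R ∨ x * t ∈ R := by
    intro x
    have hx : x ∈ closure {a, t, b} := by rw [gen]; exact mem_top x
    have key : ∀ s ∈ ({a, t, b} : Set Q), s * t ∈ R ∧ t * s ∈ R := by
      rintro s (rfl | rfl | rfl)
      · refine ⟨hat, ?_⟩
        have h1 : t * s = (s * t)⁻¹ := by rw [mul_inv_rev, ha, ht]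
        rw [h1]; exact R.inv_mem hat
      · rw [it]; exact ⟨R.one_mem, R.one_mem⟩
      · refine ⟨?_, htb⟩
        have h1 : s * t = (t * s)⁻¹ := by rw [mul_inv_rev, hb, ht]
        rw [h1]; exact R.inv_mem htb
    induction hx using closure_induction_right with
    | one => exact Or.inl R.one_mem
    | mul_right x hx y hy ih =>
      obtain ⟨h1, h2⟩ := key y hy
      rcases ih with ih | ih
      · right
        rw [mul_assoc]; exact R.mul_mem ih h1
      · left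
        have h3 : x * y = (x * t) * (t * y) := by
          rw [mul_assoc, ← mul_assoc t t y, it, one_mul]
        rw [h3]; exact R.mul_mem ih h2
    | mul_inv_cancel x hx y hy ih =>
      have hy' : y⁻¹ = y := by
        rcases hy with rfl | rfl | rfl
        · exact ha
        · exact ht
        · exact hb
      rw [hy']
      obtain ⟨h1, h2⟩ := key y hy
      rcases ih with ih | ih
      · right
        rw [mul_assoc]; exact R.mul_mem ih h1
      · left
        have h3 : x * y = (x * t) * (t * y) := by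
          rw [mul_assoc, ← mul_assoc t t y, it, one_mul]
        rw [h3]; exact R.mul_mem ih h2
  intro x hx
  rcases hall x with h | h
  · exact h
  · exfalso
    have h1 := hRe _ h
    rw [map_mul, hx, et, one_mul] at h1
    exact absurd h1 (by decide)

theorem core {Q : Type*} [Group Q] [Finite Q] (M : Subgroup Q) (hMn : M.Normal) (eps : Q →* ℤˣ)
    (k : ℕ) (hidx : M.index = k) (hcop : (Nat.card M).Coprime k) (hM : M ≤ eps.ker)
    (hcen : ∀ y ∈ M, ∀ x, eps x = 1 → x * y = y * x)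
    (a t b : Q) (ea : eps a = -1) (et : eps t = -1) (eb : eps b = -1) (ia : a * a = 1) (it : t * t = 1)
    (ib : b * b = 1) (gen : closure {a, t, b} = ⊤) (m n τ : ℕ) (hm : 0 < m) (hmτ : m ≤ τ) (hn : 0 < n) (hnτ : n ≤ τ)
    (rel : (a * t) ^ m = (t * b) ^ n) (hp : ∀ p ∈ (Nat.card M).primeFactors, 2 * τ < p) :
    ∃ (D : Subgroup Q) (u : Q) (i j : ℕ), D.Normal ∧ D ≤ eps.ker ∧ Nat.card D ∣ k ∧ u ∈ M ∧
      orderOf u = Nat.card M ∧ 0 < i ∧ 0 < j ∧ i ≤ τ ∧ j ≤ τ ∧ m * i = n * j ∧ i.Coprime j ∧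
      (∀ x, eps x = 1 → ∃ n : ℤ, ∃ d ∈ D, x = u ^ n * d) ∧
      (u ^ i)⁻¹ * (a * t) ∈ D ∧ (u ^ j)⁻¹ * (t * b) ∈ D := by
  have hM0 : Nat.card M ≠ 0 := Nat.card_pos.ne'
  have hcomm : ∀ x ∈ M, ∀ y ∈ M, x * y = y * x := fun x hx y hy => hcen y hy x (hM hx)
  have hMN : ∀ x ∈ M, x ^ Nat.card M = 1 := by
    intro x hx
    have h3 : (⟨x, hx⟩ : M) ^ Nat.card M = 1 := pow_card_eq_one'
    exact congrArg Subtype.val h3
  -- the complement
  set Y : Subgroup eps.ker := M.subgroupOf eps.ker with hY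
  have hYn : Y.Normal := hMn.subgroupOf _
  have hYc : Nat.card Y = Nat.card M := by
    rw [hY]
    exact Nat.card_congr (subgroupOfEquivOfLe hM).toEquiv
  have hYi : Y.index ∣ k := by
    rw [← hidx, hY]
    exact relIndex_dvd_index_of_normal M eps.ker
  have hYcop : (Nat.card Y).Coprime Y.index := by
    rw [hYc]; exact hcop.coprime_dvd_right hYi
  obtain ⟨K, hK⟩ := exists_right_complement'_of_coprime (N := Y) hYcop
  have hKk : Nat.card K ∣ k := by
    rw [← hK.symm.index_eq_card]; exact hYi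
  have hdec : ∀ x, eps x = 1 → ∃ y ∈ M, ∃ κ ∈ K, y * ((κ : eps.ker) : Q) = x := fun x hx => by
    obtain ⟨⟨y, κ⟩, h⟩ := hK.2 ⟨x, hx⟩
    exact ⟨(y : eps.ker), mem_subgroupOf.1 y.2, κ, κ.2, congrArg Subtype.val h⟩
  have hKp : ∀ κ ∈ K, ((κ : eps.ker) : Q) ^ k = 1 := by
    intro κ hκ
    have h1 : orderOf κ ∣ Nat.card K := by
      rw [← Subgroup.orderOf_mk κ hκ]; exact orderOf_dvd_natCard _
    have h2 : κ ^ k = 1 := orderOf_dvd_iff_pow_eq_one.1 (h1.trans hKk)
    have h3 := congrArg Subtype.val h2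
    simpa using h3
  have hMk : ∀ y ∈ M, y ^ k = 1 → y = 1 := by
    intro y hy h
    refine pow_inj_cop (i := k) hcomm hMN hcop.symm hy M.one_mem ?_
    rw [h, one_pow]
  set D : Subgroup Q := K.map eps.ker.subtype with hD
  have hDm : ∀ x, x ∈ D ↔ eps x = 1 ∧ x ^ k = 1 := by
    intro x
    constructor
    · rintro ⟨κ, hκ, rfl⟩
      exact ⟨κ.2, hKp κ hκ⟩
    · rintro ⟨hx, hxk⟩
      obtain ⟨y, hy, κ, hκ, rfl⟩ := hdec x hx
      have h1 : Commute y ((κ : eps.ker) : Q) := (hcen y hy _ κ.2).symm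
      rw [h1.mul_pow, hKp κ hκ, mul_one] at hxk
      rw [hMk y hy hxk, one_mul]
      exact ⟨κ, hκ, rfl⟩
  have hDn : D.Normal := by
    refine ⟨fun x hx g => ?_⟩
    rw [hDm] at hx ⊢
    refine ⟨?_, by rw [conj_pow, hx.2, mul_one, mul_inv_cancel]⟩
    rw [map_mul, map_mul, hx.1, mul_one, map_inv, mul_inv_cancel]
  have hDe : D ≤ eps.ker := fun x hx => ((hDm x).1 hx).1
  have hDc : Nat.card D ∣ k := by
    rw [hD]
    exact (card_map_dvd K _).trans hKk
  have hDM : ∀ x ∈ D, x ∈ M → x = 1 := fun x hx hxM => hMk x hxM ((hDm x).1 hx).2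
  have hdecD : ∀ x, eps x = 1 → ∃ y ∈ M, ∃ d ∈ D, y * d = x := by
    intro x hx
    obtain ⟨y, hy, κ, hκ, h⟩ := hdec x hx
    exact ⟨y, hy, κ, ⟨κ, hκ, rfl⟩, h⟩
  have hat1 : eps (a * t) = 1 := by rw [map_mul, ea, et]; decide
  have htb1 : eps (t * b) = 1 := by rw [map_mul, et, eb]; decide
  obtain ⟨y₁, hy₁, d₁, hd₁, h₁⟩ := hdecD _ hat1
  obtain ⟨y₂, hy₂, d₂, hd₂, h₂⟩ := hdecD _ htb1
  have hc₁ : Commute y₁ d₁ := (hcen y₁ hy₁ _ (hDe hd₁)).symm
  have hc₂ : Commute y₂ d₂ := (hcen y₂ hy₂ _ (hDe hd₂)).symm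
  have hrel : y₁ ^ m = y₂ ^ n := by
    have h3 := rel
    rw [← h₁, ← h₂, hc₁.mul_pow, hc₂.mul_pow] at h3
    have h4 : (y₂ ^ n)⁻¹ * y₁ ^ m = d₂ ^ n * (d₁ ^ m)⁻¹ := by
      rw [inv_mul_eq_iff_eq_mul, ← mul_assoc, ← h3, mul_inv_cancel_right]
    have h5 := hDM _ (by rw [h4]; exact D.mul_mem (D.pow_mem hd₂ n) (D.inv_mem (D.pow_mem hd₁ m)))
      (M.mul_mem (M.inv_mem (M.pow_mem hy₂ n)) (M.pow_mem hy₁ m))
    exact (inv_mul_eq_one.1 h5).symm
  obtain ⟨g, hg⟩ : ∃ g, g = Nat.gcd m n := ⟨_, rfl⟩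
  have hg0 : 0 < g := hg ▸ Nat.gcd_pos_of_pos_left _ hm
  obtain ⟨j, hj⟩ : ∃ j, m = g * j := hg ▸ Nat.gcd_dvd_left m n
  obtain ⟨i, hi⟩ : ∃ i, n = g * i := hg ▸ Nat.gcd_dvd_right m n
  have hj0 : 0 < j := Nat.pos_of_ne_zero (by rintro rfl; omega)
  have hi0 : 0 < i := Nat.pos_of_ne_zero (by rintro rfl; omega)
  have hjm : j ≤ m := by rw [hj]; exact Nat.le_mul_of_pos_left _ hg0
  have hin : i ≤ n := by rw [hi]; exact Nat.le_mul_of_pos_left _ hg0
  have hgm : g ≤ m := by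
    conv_rhs => rw [hj]
    exact Nat.le_mul_of_pos_right _ hj0
  have hij : i.Coprime j := by
    have h3 : g * Nat.gcd i j = g * 1 := by
      rw [← Nat.gcd_mul_left, ← hi, ← hj, Nat.gcd_comm, ← hg, mul_one]
    exact Nat.eq_of_mul_eq_mul_left hg0 h3
  have hgc : g.Coprime (Nat.card M) := cop_of_primes hg0 (by omega) hp hM0
  have hic : i.Coprime (Nat.card M) := cop_of_primes hi0 (by omega) hp hM0
  have hred : y₁ ^ j = y₂ ^ i := by
    refine pow_inj_cop hcomm hMN hgc (M.pow_mem hy₁ _) (M.pow_mem hy₂ _) ?_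
    rw [← pow_mul, ← pow_mul, mul_comm j g, mul_comm i g, ← hj, ← hi, hrel]
  obtain ⟨r, hr⟩ : ∃ r : ℕ, (y₁ ^ i) ^ r = y₁ := by
    have h3 : (orderOf y₁).Coprime i := by
      refine (Nat.Coprime.coprime_dvd_left ?_ hic.symm)
      exact orderOf_dvd_of_pow_eq_one (hMN y₁ hy₁)
    obtain ⟨r, hr⟩ := exists_pow_eq_self_of_coprime h3.symm
    exact ⟨r, hr⟩
  obtain ⟨u, hu⟩ : ∃ u, u = y₁ ^ r := ⟨_, rfl⟩
  have huM : u ∈ M := hu ▸ M.pow_mem hy₁ r
  have hui : u ^ i = y₁ := by rw [hu, ← pow_mul, mul_comm, pow_mul, hr]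
  have huj : u ^ j = y₂ := by
    refine pow_inj_cop hcomm hMN hic (M.pow_mem huM _) hy₂ ?_
    rw [← pow_mul, mul_comm, pow_mul, hui, hred]
  have hmp : (u ^ i)⁻¹ * (a * t) ∈ D := by rw [hui, ← h₁, inv_mul_cancel_left]; exact hd₁
  have hmq : (u ^ j)⁻¹ * (t * b) ∈ D := by rw [huj, ← h₂, inv_mul_cancel_left]; exact hd₂
  -- everything is `u ^ n d`
  have huc : ∀ x, eps x = 1 → Commute x u := fun x hx => hcen u huM x hx
  have hker : ∀ x, eps x = 1 → ∃ n : ℤ, ∃ d ∈ D, x = u ^ n * d := by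
    intro x hx
    have h3 := even_gen eps a t b ea et eb ia it ib gen x hx
    clear hx
    induction h3 using closure_induction with
    | mem x hx =>
      rcases hx with rfl | rfl
      · exact ⟨i, _, hmp, by rw [zpow_natCast, mul_inv_cancel_left]⟩
      · exact ⟨j, _, hmq, by rw [zpow_natCast, mul_inv_cancel_left]⟩
    | one => exact ⟨0, 1, D.one_mem, by simp⟩
    | mul x y _ _ hx hy =>
      obtain ⟨n₁, e₁, he₁, rfl⟩ := hx
      obtain ⟨n₂, e₂, he₂, rfl⟩ := hy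
      refine ⟨n₁ + n₂, e₁ * e₂, D.mul_mem he₁ he₂, ?_⟩
      have h4 : e₁ * u ^ n₂ = u ^ n₂ * e₁ := ((huc e₁ (hDe he₁)).zpow_right n₂).eq
      rw [zpow_add, mul_assoc, ← mul_assoc e₁, h4]
      group
    | inv x _ hx =>
      obtain ⟨n₁, e₁, he₁, rfl⟩ := hx
      refine ⟨-n₁, e₁⁻¹, D.inv_mem he₁, ?_⟩
      have h4 : e₁⁻¹ * (u ^ n₁)⁻¹ = (u ^ n₁)⁻¹ * e₁⁻¹ :=
        (((huc e₁ (hDe he₁)).zpow_right n₁).inv_inv).eq
      rw [mul_inv_rev, h4, zpow_neg]
  have hgenM : ∀ x ∈ M, x ∈ zpowers u := by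
    intro x hx
    obtain ⟨n₁, d, hd, h⟩ := hker x (hM hx)
    have h3 : d = 1 := by
      refine hDM d hd ?_
      have h4 : d = (u ^ n₁)⁻¹ * x := by rw [h, inv_mul_cancel_left]
      rw [h4]; exact M.mul_mem (M.inv_mem (M.zpow_mem huM _)) hx
    rw [h, h3, mul_one]
    exact zpow_mem_zpowers u n₁
  have hMu : zpowers u = M := le_antisymm (zpowers_le.2 huM) hgenM
  have hord : orderOf u = Nat.card M := by rw [← Nat.card_zpowers, hMu]
  refine ⟨D, u, i, j, hDn, hDe, hDc, huM, hord, hi0, hj0, by omega, by omega, ?_, hij, hker, hmp, hmq⟩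
  rw [hi, hj]; ring

end DSTRN

theorem dstrN : DstrNS := by
  intro G _ _ N C C₁ eps k P a t b τ m n h hP hC₁n h1
  have hgn := h.gn
  have hNn : N.Normal := hgn.Nn
  set π := QuotientGroup.mk' C₁ with hπ
  have hsurj : Function.Surjective π := QuotientGroup.mk'_surjective C₁
  have hker : ∀ x, π x = 1 ↔ x ∈ C₁ := fun x => QuotientGroup.eq_one_iff x
  obtain ⟨M, hM⟩ : ∃ M : Subgroup (G ⧸ C₁), M = N.map π := ⟨_, rfl⟩
  have hMn : M.Normal := hM ▸ hNn.map π hsurj
  have hMk : M.index = k := by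
    rw [hM, Subgroup.index_map, QuotientGroup.ker_mk', sup_of_le_left h.leN,
      MonoidHom.range_eq_top.2 hsurj, Subgroup.index_top, mul_one, hgn.idx]
  have hMd : Nat.card M ∣ Nat.card N := hM ▸ Subgroup.card_map_dvd N π
  have hMcop : (Nat.card M).Coprime k := hgn.cop.coprime_dvd_left hMd
  have hk0 : 0 < k := by
    rw [← hgn.idx]; exact Nat.pos_of_ne_zero N.index_ne_zero_of_finite
  have hC₁k : ∀ g ∈ C₁, eps g = 1 := fun g hg => hgn.eN g (h.leN hg)
  obtain ⟨eps', heps'⟩ : ∃ eps' : G ⧸ C₁ →* ℤˣ, ∀ g, eps' (π g) = eps g :=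
    ⟨QuotientGroup.lift C₁ eps hC₁k, fun g => rfl⟩
  have hMe : M ≤ eps'.ker := by
    rw [hM]
    rintro _ ⟨x, hx, rfl⟩
    rw [MonoidHom.mem_ker, heps']
    exact hgn.eN x hx
  have hcen : ∀ y ∈ M, ∀ x, eps' x = 1 → x * y = y * x := by
    rw [hM]
    rintro _ ⟨y, hy, rfl⟩ x hx
    obtain ⟨g, rfl⟩ := hsurj x
    rw [heps'] at hx
    have h2 := h.le (hgn.act y hy g)
    rw [hx, Units.val_one, zpow_one, ← hker, map_mul, map_mul, map_mul, map_inv, map_inv] at h2
    exact mul_inv_eq_iff_eq_mul.1 (mul_inv_eq_one.1 h2)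
  have hgen : Subgroup.closure {π a, π t, π b} = ⊤ := by
    have h2 : Subgroup.map π (Subgroup.closure {a, t, b}) = ⊤ := by
      rw [h.gen, ← MonoidHom.range_eq_map, MonoidHom.range_eq_top.2 hsurj]
    rw [MonoidHom.map_closure, Set.image_insert_eq, Set.image_insert_eq, Set.image_singleton] at h2
    exact h2
  have hrel : (π a * π t) ^ m = (π t * π b) ^ n := by
    have h2 := (hker _).2 h.rel
    unfold relN at h2
    rw [map_mul, map_inv, map_pow, map_pow, map_mul, map_mul] at h2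
    exact mul_inv_eq_one.1 h2
  have hpr : ∀ p ∈ (Nat.card M).primeFactors, 8 * τ * k < p := fun p hp =>
    h.bigN p (Nat.primeFactors_mono hMd Nat.card_pos.ne' hp)
  have h8 : 8 * τ ≤ 8 * τ * k := Nat.le_mul_of_pos_right _ hk0
  have hpr2 : ∀ p ∈ (Nat.card M).primeFactors, 2 * τ < p := fun p hp => by
    have h2 := hpr p hp
    omega
  obtain ⟨D, u, i, j, hDn, hDe, hDc, huM, hord, hi0, hj0, hiτ, hjτ, hmi, hij, hdec, hmp, hmq⟩ :=
    DSTRN.core M hMn eps' k hMk hMcop hMe hcen (π a) (π t) (π b) (by rw [heps', h.ea]) (by rw [heps', h.et])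
      (by rw [heps', h.eb]) (by rw [← map_mul, h.ia, map_one]) (by rw [← map_mul, h.it, map_one])
      (by rw [← map_mul, h.ib, map_one]) hgen m n τ h.mpos h.mle h.npos h.nle hrel hpr2
  obtain ⟨u₀, hu₀, rfl⟩ : ∃ u₀ ∈ N, π u₀ = u := by
    rw [hM] at huM
    exact huM
  have hPM : P ∣ Nat.card M := by
    have e1 : Nat.card M * M.index = Nat.card (G ⧸ C₁) := M.card_mul_index
    have e2 : Nat.card N * N.index = Nat.card G := N.card_mul_index
    have e3 : Nat.card G = Nat.card (G ⧸ C₁) * Nat.card C₁ := Subgroup.card_eq_card_quotient_mul_card_subgroup C₁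
    have e4 : Nat.card N = Nat.card M * Nat.card C₁ := by
      refine Nat.eq_of_mul_eq_mul_right hk0 ?_
      rw [hMk] at e1
      rw [hgn.idx] at e2
      rw [e2, e3, ← e1]
      ring
    have h2 : P ∣ Nat.card M * Nat.card C₁ := e4 ▸ hgn.dvd
    exact (hgn.prime.dvd_mul.1 h2).resolve_right h.nP
  have hPo : P ≤ orderOf (π u₀) := by
    rw [hord]
    exact Nat.le_of_dvd Nat.card_pos hPM
  refine ⟨D, u₀, i, j, eps', heps', hu₀, hiτ, hjτ, hmi, hij, by rw [hord]; exact hPM, ?_⟩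
  intro a' t' b' ha' ht' hb'
  have hq : ∀ s : (qLb C₁ (AN a t b) h.sym h1).L, (qLb C₁ (AN a t b) h.sym h1).q s = π s.1 := fun _ => rfl
  have hti : (π t)⁻¹ = π t := by
    rw [← map_inv, inv_eq_of_mul_eq_one_right h.it]
  have hbi : (π b)⁻¹ = π b := by
    rw [← map_inv, inv_eq_of_mul_eq_one_right h.ib]
  refine
    { fin := inferInstance
      gen := ?_
      all := ?_
      kpos := hk0
      nD := hDn
      leD := hDe
      card := hDc
      ea := by rw [hq, heps', ha', h.ea]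
      et := by rw [hq, heps', ht', h.et]
      eb := by rw [hq, heps', hb', h.eb]
      ia := by rw [hq, ha', ← map_mul, h.ia, map_one]
      it := by rw [hq, ht', ← map_mul, h.it, map_one]
      ib := by rw [hq, hb', ← map_mul, h.ib, map_one]
      ipos := hi0
      jpos := hj0
      cop := hij
      cen := hcen _ huM
      copk := ?_
      big := ?_
      ker := hdec
      mp := by rw [hq, hq, ha', ht', hti]; exact hmp
      mq := by rw [hq, hq, ht', hb', hbi]; exact hmq }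
  · rw [eq_top_iff, ← hgen, Subgroup.closure_le]
    rintro _ (rfl | rfl | rfl)
    · exact Subgroup.subset_closure ⟨a', by rw [hq, ha']⟩
    · exact Subgroup.subset_closure ⟨t', by rw [hq, ht']⟩
    · exact Subgroup.subset_closure ⟨b', by rw [hq, hb']⟩
  · rintro ⟨s, (hs | hs | hs), hs1⟩
    · exact Or.inl (Subtype.ext (hs.trans ha'.symm))
    · exact Or.inr (Or.inl (Subtype.ext (hs.trans ht'.symm)))
    · exact Or.inr (Or.inr (Subtype.ext (hs.trans hb'.symm)))
  · rw [hord]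
    refine Nat.Coprime.mul_right hMcop ?_
    exact (DSTRN.cop_of_primes (by omega : 0 < i + j) (by omega : i + j ≤ 2 * τ) hpr2 Nat.card_pos.ne').symm
  · have h2 : (i + j) ^ 3 ≤ (2 * τ) ^ 3 := Nat.pow_le_pow_left (by omega) 3
    calc 100 * k ^ 3 * (i + j) ^ 3 ≤ 100 * k ^ 3 * (2 * τ) ^ 3 := Nat.mul_le_mul_left _ h2
      _ = 800 * k ^ 3 * τ ^ 3 := by ring
      _ < P := hP
      _ ≤ _ := hPo

end Pool.Agent.Lib.MP_688fd0_co.SQ5.N
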