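import Pool.Agent.Lib.MP_688fd0_co.SQ4.IfaceV
import Pool.Agent.Lib.MP_688fd0_co.SQ4.H95.Count
import Pool.Agent.Lib.MP_688fd0_co.SQ3.H98.KB

/-!
Type C2, NEAR-3 (helper98; papers 4231, 4294, plan of helper87): three involutions `a`, `t`, `b` (`eps = -1`), `t` in the
middle: in `Q = G / C` the elements `p = a t`, `q = t b` lie in `u ^ i D`, `u ^ j D` (`u` central in `Q₊ = ker eps`,
`i`, `j > 0` coprime and small). `w = p q = a b⁻¹`, `e = i + j`. The lines are those of type C1: `U x = x a` on `Q₊`,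
`U x = x b⁻¹` outside.

Strands of the tube: `Fin e × D`; the strand `(c, d)` starts at the vertex `u ^ c d`. `stN n d` is the strand of the vertex
`u ^ n d`. The rung `((c, d), l)`, `l < k`, is the `t`-edge at the vertex `u ^ c d w ^ l`; its other end lies on the strand
of `u ^ c d w ^ l p⁻¹`.
-/

set_option autoImplicit false

namespace Pool.Agent.Lib.MP_688fd0_co.SQ5.N

open Pool.Agent.Lib.MP_688fd0_co.OSF Pool.Agent.Lib.MP_688fd0_co.SQ2 Pool.Agent.Lib.MP_688fd0_co.SQ3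
open Pool.Agent.Lib.MP_688fd0_co.SQ4
open SQ2.V (Puz)

/-! ### The strands -/

section model

variable {D : Type} [Group D]

/-- The strand of the vertex `u ^ n d` (`w` = the `D`-part of `a b⁻¹`). -/
def stN (e : ℕ) [NeZero e] (w : D) (n : ℤ) (d : D) : Fin e × D :=
  (⟨(n % (e : ℤ)).toNat, by
    have h : (e : ℤ) ≠ 0 := by exact_mod_cast NeZero.ne e
    have h1 := Int.emod_nonneg n h
    have h2 := Int.emod_lt_of_pos n (by have := NeZero.pos e; omega : (0 : ℤ) < e)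
    omega⟩, d * w ^ (-(n / (e : ℤ))))

/-- The rungs. -/
abbrev RgN (e k : ℕ) (D : Type) := (Fin e × D) × Fin k

/-- The second strand of a rung (`p` = the `D`-part of `a t⁻¹`). -/
def yN (e : ℕ) [NeZero e] (w p : D) (i k : ℕ) (r : RgN e k D) : Fin e × D :=
  stN e w ((r.1.1 : ℤ) + e * (r.2 : ℤ) - i) (r.1.2 * w ^ (r.2 : ℕ) * p⁻¹)

/-- Two strands are joined by a rung. -/
def JnN (e : ℕ) [NeZero e] (w p : D) (i k : ℕ) (v v' : Fin e × D) : Prop :=
  ∃ r : RgN e k D, (r.1 = v ∧ yN e w p i k r = v') ∨ (r.1 = v' ∧ yN e w p i k r = v)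

/-- The component of `v₀`. -/
def CmpN (e : ℕ) [NeZero e] (w p : D) (i k : ℕ) (v₀ : Fin e × D) (A : Fin e × D → Prop) : Prop :=
  ∀ v, A v ↔ Relation.ReflTransGen (JnN e w p i k) v₀ v

/-- The drift of a rung. -/
def drN {e : ℕ} (i : ℕ) {D F : Type} [Neg F] (v : Fin e × D) (o : F) : F := if (v.1 : ℕ) < i then o else -o

end model

/-- GRAPH: the puzzle of a component. -/
def GraphNS : Prop :=
  ∀ (D : Type) [Group D] [Fintype D] [DecidableEq D] (w p : D) (i e k : ℕ) [NeZero e], 0 < i → i < e → i.Coprime e →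
    0 < k → Nat.card D ∣ k → p * w ≠ w * p →
    ∀ (v₀ : Fin e × D) (A : Fin e × D → Prop), CmpN e w p i k v₀ A →
    ∀ (J : RgN e k D → Prop), (∀ r, J r ↔ A r.1) →
    ∀ P : Puz {v // A v} {r : RgN e k D // J r}, (∀ r, (P.x r).1 = r.1.1) → (∀ r, (P.y r).1 = yN e w p i k r.1) →
      SQ4.SCon P ∧ P.TwoN ∧ P.NoCut ∧ P.ConnS ∧ ∀ v, {r | P.On r v}.ncard = 2 * k

/-- EXA: if the volumes `χ (vertex) τ` of the rungs are exact then `τ = 0` (`χ p = 1` or `χ q = 1`, `q = p⁻¹ w`; the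
vertical edges have the volume `0`). Walk along the powers of `p` (or `q`): `p ^ (e k)` and `w ^ (i k)` are the same
translation. -/
def ExaNS : Prop :=
  ∀ (D : Type) [Group D] [Fintype D] (w p : D) (i e k : ℕ) [NeZero e], 0 < i → i < e → 0 < k → Nat.card D ∣ k →
    ∀ (v₀ : Fin e × D) (A : Fin e × D → Prop), CmpN e w p i k v₀ A →
    ∀ (F : Type) [Field F] (χ : D →* F), χ p = 1 ∨ χ w = χ p → ((e * k : ℕ) : F) ≠ 0 →
      ∀ (τ : F) (Φ : Fin e × D → F),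
        (∀ r : RgN e k D, A r.1 → χ r.1.2 * χ w ^ (r.2 : ℕ) * τ = Φ (yN e w p i k r) - Φ r.1) → τ = 0

/-- EXA, second part (no twist, drift `o`; the same walk, `i k` of its `e k` rungs have `c < i`). -/
def ExaDS : Prop :=
  ∀ (D : Type) [Group D] [Fintype D] (w p : D) (i e k : ℕ) [NeZero e], 0 < i → i < e → 0 < k → Nat.card D ∣ k →
    ∀ (v₀ : Fin e × D) (A : Fin e × D → Prop), CmpN e w p i k v₀ A →
    ∀ (F : Type) [Field F], ((k : ℕ) : F) ≠ 0 →
      ∀ (τ o : F) (Φ : Fin e × D → F),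
        (∀ r : RgN e k D, A r.1 → τ + drN i r.1 o = Φ (yN e w p i k r) - Φ r.1) → (e : F) * τ + (2 * (i : F) - e) * o = 0

/-- WSUM: the sum of weights which depend on the line of the strand only (`ω : D → F`, `ω (d w) = ω d`), over a component.
The group `Γ' = ⟨(i, p), (e, w)⟩ ≤ ℤ × D` acts transitively on the component and on the lines `D / ⟨w⟩`, so the map from the
component to the lines has fibres of constant size. -/
def WsumNS : Prop :=
  ∀ (D : Type) [Group D] [Fintype D] (w p : D) (i e k : ℕ) [NeZero e], 0 < i → i < e → 0 < k → Nat.card D ∣ k →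
    Subgroup.closure {p, w} = ⊤ →
    ∀ (v₀ : Fin e × D) (A : Fin e × D → Prop) [DecidablePred A], CmpN e w p i k v₀ A →
    ∀ (F : Type) [Field F] (ω : D → F), (∀ d, ω (d * w) = ω d) → (∀ n : ℕ, 0 < n → n ≤ e * k → (n : F) ≠ 0) →
      ∑ d, ω d ≠ 0 → (∑ v : Fin e × D, if A v then ω v.2 else 0) ≠ 0

/-! ### The group -/

/-- The hypotheses at the level of the quotient `Q = G / C`. -/
structure HypN {Q : Type} [Group Q] (B : Lb.{0, 0} Q) (a t b : B.L) (eps : Q →* ℤˣ) (D : Subgroup Q) (u : Q)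
    (i j k : ℕ) : Prop where
  fin : Finite Q
  gen : Subgroup.closure (Set.range B.q) = ⊤
  all : ∀ s : B.L, s = a ∨ s = t ∨ s = b
  kpos : 0 < k
  nD : D.Normal
  leD : D ≤ eps.ker
  card : Nat.card D ∣ k
  ea : eps (B.q a) = -1
  et : eps (B.q t) = -1
  eb : eps (B.q b) = -1
  ia : B.q a * B.q a = 1
  it : B.q t * B.q t = 1
  ib : B.q b * B.q b = 1
  ipos : 0 < i
  jpos : 0 < j
  cop : i.Coprime j
  cen : ∀ x : Q, eps x = 1 → x * u = u * x
  copk : (orderOf u).Coprime (k * (i + j))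
  big : 100 * k ^ 3 * (i + j) ^ 3 < orderOf u
  ker : ∀ x, eps x = 1 → ∃ n : ℤ, ∃ d ∈ D, x = u ^ n * d
  mp : (u ^ i)⁻¹ * (B.q a * (B.q t)⁻¹) ∈ D
  mq : (u ^ j)⁻¹ * (B.q t * (B.q b)⁻¹) ∈ D

section grp

variable {Q : Type} [Group Q] {B : Lb.{0, 0} Q} {a t b : B.L} {eps : Q →* ℤˣ} {D : Subgroup Q} {u : Q} {i j k : ℕ}

/-- The lines. -/
def HypN.up (H : HypN B a t b eps D u i j k) : Up B := upC B a b eps H.ea H.eb

theorem HypN.eu (H : HypN B a t b eps D u i j k) : eps u = 1 := by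
  have h0 := H.cop
  have h1 : eps (u ^ i) = 1 := by
    have h2 := H.leD H.mp
    rw [MonoidHom.mem_ker, map_mul, map_inv, map_mul, map_inv, H.ea, H.et, mul_inv_cancel, mul_one] at h2
    exact inv_eq_one.1 h2
  have h2 : eps (u ^ j) = 1 := by
    have h2 := H.leD H.mq
    rw [MonoidHom.mem_ker, map_mul, map_inv, map_mul, map_inv, H.et, H.eb, mul_inv_cancel, mul_one] at h2
    exact inv_eq_one.1 h2
  rw [map_pow] at h1 h2
  have h3 : orderOf (eps u) ∣ Nat.gcd i j := Nat.dvd_gcd (orderOf_dvd_of_pow_eq_one h1) (orderOf_dvd_of_pow_eq_one h2)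
  rw [h0, Nat.dvd_one] at h3
  exact orderOf_eq_one_iff.1 h3

/-- `D` is normalised by everything; `p`, `q`, `w` modulo powers of `u`. -/
theorem HypN.mw (H : HypN B a t b eps D u i j k) : (u ^ (i + j))⁻¹ * (B.q a * (B.q b)⁻¹) ∈ D := by
  have h1 := D.mul_mem H.mp H.mq
  have h2 : (u ^ i)⁻¹ * (B.q a * (B.q t)⁻¹) * ((u ^ j)⁻¹ * (B.q t * (B.q b)⁻¹)) =
      (u ^ (i + j))⁻¹ * (B.q a * (B.q b)⁻¹) := by
    have h3 : Commute (B.q a * (B.q t)⁻¹) u := H.cen _ (by rw [map_mul, map_inv, H.ea, H.et]; decide)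
    have h4 : (B.q a * (B.q t)⁻¹) * (u ^ j)⁻¹ = (u ^ j)⁻¹ * (B.q a * (B.q t)⁻¹) :=
      ((h3.pow_right j).inv_right).eq
    have h5 : (u ^ i)⁻¹ * (u ^ j)⁻¹ = (u ^ (i + j))⁻¹ := by
      rw [← mul_inv_rev, ← pow_add, add_comm]
    calc (u ^ i)⁻¹ * (B.q a * (B.q t)⁻¹) * ((u ^ j)⁻¹ * (B.q t * (B.q b)⁻¹))
        = (u ^ i)⁻¹ * ((B.q a * (B.q t)⁻¹) * (u ^ j)⁻¹) * (B.q t * (B.q b)⁻¹) := by group
      _ = (u ^ i)⁻¹ * (u ^ j)⁻¹ * (B.q a * (B.q b)⁻¹) := by rw [h4]; group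
      _ = _ := by rw [h5]
  rwa [h2] at h1

/-- The `D`-part of `w = a b⁻¹`. -/
def HypN.wD (H : HypN B a t b eps D u i j k) : D := ⟨(u ^ (i + j))⁻¹ * (B.q a * (B.q b)⁻¹), H.mw⟩

/-- The `D`-part of `p = a t⁻¹`. -/
def HypN.pD (H : HypN B a t b eps D u i j k) : D := ⟨(u ^ i)⁻¹ * (B.q a * (B.q t)⁻¹), H.mp⟩

/-- The first vertex of a strand. -/
def gN (D : Subgroup Q) (u : Q) (e : ℕ) (s : Fin e × D) : Q := u ^ (s.1 : ℕ) * s.2

theorem HypN.nz (H : HypN B a t b eps D u i j k) : NeZero (i + j) := ⟨by have := H.ipos; omega⟩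

/-- The powers of `u` meet `D` in `1` only. -/
theorem HypN.dis (H : HypN B a t b eps D u i j k) {n : ℤ} (h : u ^ n ∈ D) : u ^ n = 1 := by
  have := H.fin
  have h1 : orderOf (u ^ n) ∣ Nat.card D := by
    have := orderOf_dvd_natCard (⟨u ^ n, h⟩ : D)
    rwa [Subgroup.orderOf_mk] at this
  have h2 : orderOf (u ^ n) ∣ orderOf u := by
    rw [orderOf_dvd_iff_pow_eq_one, ← zpow_natCast, ← zpow_mul, mul_comm, zpow_mul, zpow_natCast, pow_orderOf_eq_one,
      one_zpow]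
  have h3 : (orderOf u).Coprime k := H.copk.coprime_mul_right_right
  rw [← orderOf_eq_one_iff, ← Nat.dvd_one, ← h3]
  exact Nat.dvd_gcd h2 (h1.trans H.card)

theorem HypN.inj (H : HypN B a t b eps D u i j k) : Function.Injective (gN D u (i + j)) := by
  have := H.fin
  rintro ⟨c, d⟩ ⟨c', d'⟩ h
  have h0 : u ^ (c : ℕ) * (d : Q) = u ^ (c' : ℕ) * (d' : Q) := h
  have h1 : u ^ ((c : ℤ) - (c' : ℤ)) = (d' : Q) * (d : Q)⁻¹ := by
    have h2 : Commute u (d : Q) := (H.cen _ (H.leD d.2)).symm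
    have h3 : u ^ ((c : ℤ) - (c' : ℤ)) = (u ^ (c' : ℕ))⁻¹ * u ^ (c : ℕ) := by
      rw [sub_eq_neg_add, zpow_add, zpow_neg, zpow_natCast, zpow_natCast]
    rw [h3, eq_mul_inv_iff_mul_eq, mul_assoc, h0, inv_mul_cancel_left]
  have h4 := H.dis (n := (c : ℤ) - c') (by rw [h1]; exact D.mul_mem d'.2 (D.inv_mem d.2))
  have h5 : (orderOf u : ℤ) ∣ (c : ℤ) - c' := orderOf_dvd_iff_zpow_eq_one.2 h4
  have h6 : (i + j) < orderOf u := by
    have h7 := H.big
    have h8 : 1 ≤ 100 * k ^ 3 := Nat.mul_pos (by norm_num) (Nat.pow_pos H.kpos)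
    have h9 : i + j ≤ (i + j) ^ 3 := Nat.le_self_pow (by norm_num) _
    have h10 := Nat.mul_le_mul h8 h9
    omega
  have hc := c.2
  have hc' := c'.2
  have h7 : (c : ℤ) - c' = 0 := by
    apply Int.eq_zero_of_abs_lt_dvd h5
    rw [abs_lt]
    constructor <;> omega
  have h8 : c = c' := Fin.ext (by omega)
  subst h8
  have h9 : d = d' := Subtype.ext (mul_left_cancel h0)
  rw [h9]

end grp

/-- The class of the rungs `t`, with windows of height at most `h`. -/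
structure IsN {Q : Type} [Group Q] [DecidableEq Q] {B : Lb.{0, 0} Q} {a t b : B.L} {eps : Q →* ℤˣ} {D : Subgroup Q}
    {u : Q} {i j k : ℕ} (H : HypN B a t b eps D u i j k) [NeZero (i + j)] [Fintype D]
    (X : ClsW H.up (gN D u (i + j)) H.inj (2 * k) (RgN (i + j) k D)) (h : ℕ) : Prop where
  x : ∀ r, X.x r = r.1
  y : ∀ r, X.y r = yN (i + j) H.wD H.pD i k r
  hle : ∀ r, X.H r ≤ h
  clo : ∀ A : Fin (i + j) × D → Prop, (∀ r, A (X.x r) ↔ A (X.y r)) → X.Clo A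
  /-- the volumes if all vertical edges have the volume `o` (the rung joins the `U`-level `2 l` of its first strand with the
  `U`-level `2 l - 1` (`c < i`) or `2 l + 1` (`i ≤ c`) of its second strand) -/
  vol : ∀ {F : Type} [Field F] (V : Ev B F) (o : F), V.Inv ((u ^ (i + j)) ^ k) → (∀ x, V.e x (H.up.up x) = o) →
    X.Cu V (fun r => V.e (gN D u (i + j) r.1 * (B.q a * (B.q b)⁻¹) ^ (r.2 : ℕ)) t + drN i r.1 o) ∧
      ∀ A : Fin (i + j) × D → Prop, (∀ r, A (X.x r) ↔ A (X.y r)) → X.Th V A o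

/-- The height of the gadgets. -/
def hN (e k : ℕ) : ℕ := 20 * (e + 1) ^ 4 * (k + 1) ^ 4

/-- CLSN (helper87). -/
def ClsNS : Prop :=
  ∀ (Q : Type) [Group Q] [DecidableEq Q] (B : Lb.{0, 0} Q) (a t b : B.L) (eps : Q →* ℤˣ) (D : Subgroup Q) (u : Q)
    (i j k : ℕ) (H : HypN B a t b eps D u i j k) [NeZero (i + j)] [Fintype D],
    ∃ X : ClsW H.up (gN D u (i + j)) H.inj (2 * k) (RgN (i + j) k D), IsN H X (hN (i + j) k)

/-! ### Windows and flips -/

section win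

variable {Q : Type} [Group Q] {B : Lb.{0, 0} Q} {a t b : B.L} {eps : Q →* ℤˣ} {D : Subgroup Q}
  {u : Q} {i j k : ℕ}

/-- `U ^ (2 k) x = z ^ k x`, `z = u ^ (i + j)`. -/
theorem HypN.per (H : HypN B a t b eps D u i j k) : Per H.up (2 * k) ((u ^ (i + j)) ^ k) := by
  have hu := H.eu
  have hw1 : eps (B.q a * (B.q b)⁻¹) = 1 := by rw [map_mul, map_inv, H.ea, H.eb]; decide
  have hz1 : eps (u ^ (i + j)) = 1 := by rw [map_pow, hu, one_pow]
  have hwk : (B.q a * (B.q b)⁻¹) ^ k = (u ^ (i + j)) ^ k := by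
    have := H.fin
    have h1 : ((u ^ (i + j))⁻¹ * (B.q a * (B.q b)⁻¹)) ^ k = 1 := by
      have h2 : orderOf ((u ^ (i + j))⁻¹ * (B.q a * (B.q b)⁻¹)) ∣ Nat.card D := by
        have := orderOf_dvd_natCard (⟨_, H.mw⟩ : D)
        rwa [Subgroup.orderOf_mk] at this
      exact orderOf_dvd_iff_pow_eq_one.1 (h2.trans H.card)
    have h2 : Commute (u ^ (i + j)) ((u ^ (i + j))⁻¹ * (B.q a * (B.q b)⁻¹)) := by
      refine (Commute.pow_left (H.cen _ ?_).symm _)
      rw [map_mul, map_inv, hz1, hw1]; decide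
    have h3 : B.q a * (B.q b)⁻¹ = u ^ (i + j) * ((u ^ (i + j))⁻¹ * (B.q a * (B.q b)⁻¹)) := by
      rw [mul_inv_cancel_left]
    rw [h3, h2.mul_pow, h1, mul_one]
  have hzk : eps ((u ^ (i + j)) ^ k) = 1 := by rw [map_pow, hz1, one_pow]
  have hup : ∀ x, H.up.up ((u ^ (i + j)) ^ k * x) = H.up.up x := by
    intro x
    show (if eps ((u ^ (i + j)) ^ k * x) = 1 then a else B.inv b) = if eps x = 1 then a else B.inv b
    rw [map_mul, hzk, one_mul]
  have h2 : ∀ x, eps x = 1 → ∀ n : ℕ, (H.up.U ^ (2 * n)) x = x * (B.q a * (B.q b)⁻¹) ^ n := by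
    intro x hx n
    induction n with
    | zero => simp
    | succ n ih =>
      have h3 : ∀ y, eps y = 1 → H.up.U (H.up.U y) = y * (B.q a * (B.q b)⁻¹) := by
        intro y hy
        have h4 : H.up.U y = y * B.q a := if_pos hy
        have h5 : eps (y * B.q a) ≠ 1 := by rw [map_mul, hy, H.ea]; decide
        rw [h4]
        have h6 : H.up.U (y * B.q a) = y * B.q a * (B.q b)⁻¹ := if_neg h5
        rw [h6, mul_assoc]
      rw [Nat.mul_succ, H.up.U_pow_succ', H.up.U_pow_succ', ih, h3 _ (by rw [map_mul, hx, map_pow, hw1, one_pow, one_mul]),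
        pow_succ, mul_assoc]
  refine ⟨fun x => ?_, hup⟩
  rcases Int.units_eq_one_or (eps x) with hx | hx
  · rw [h2 x hx k, hwk]
    have h3 : Commute x (u ^ (i + j)) := Commute.pow_right (H.cen x hx) _
    exact (h3.pow_right k).eq
  · have h3 : x = H.up.U (x * (B.q a)⁻¹) := by
      have h4 : eps (x * (B.q a)⁻¹) = 1 := by rw [map_mul, map_inv, hx, H.ea]; decide
      have h5 : H.up.U (x * (B.q a)⁻¹) = x * (B.q a)⁻¹ * B.q a := if_pos h4
      rw [h5, inv_mul_cancel_right]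
    have h4 : eps (x * (B.q a)⁻¹) = 1 := by rw [map_mul, map_inv, hx, H.ea]; decide
    have h5 : (H.up.U ^ (2 * k)) (x * (B.q a)⁻¹) = (u ^ (i + j)) ^ k * (x * (B.q a)⁻¹) := by
      rw [h2 _ h4 k, hwk]
      have h3 : Commute (x * (B.q a)⁻¹) (u ^ (i + j)) := Commute.pow_right (H.cen _ h4) _
      exact (h3.pow_right k).eq
    have h6 : (H.up.U ^ (2 * k)) (H.up.U (x * (B.q a)⁻¹)) = H.up.U ((H.up.U ^ (2 * k)) (x * (B.q a)⁻¹)) := by
      rw [← H.up.U_pow_succ', ← H.up.U_pow_succ]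
    calc (H.up.U ^ (2 * k)) x = (H.up.U ^ (2 * k)) (H.up.U (x * (B.q a)⁻¹)) := by rw [← h3]
      _ = H.up.U ((u ^ (i + j)) ^ k * (x * (B.q a)⁻¹)) := by rw [h6, h5]
      _ = (u ^ (i + j)) ^ k * H.up.U (x * (B.q a)⁻¹) := by
        rw [H.up.hU, H.up.hU, hup, mul_assoc]
      _ = _ := by rw [← h3]

/-- The frontier. -/
def FN (H : HypN B a t b eps D u i j k) [Fintype D] : Finset Q :=
  Finset.univ.map ⟨gN D u (i + j), H.inj⟩

/-- No two versions of a flat window of height at most `Λ` have different volumes. -/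
def NoFlN [DecidableEq Q] (H : HypN B a t b eps D u i j k) [Fintype D] (t₀ : ℕ) (x s₁ s₂ : Q) (Λ : ℕ) {R : Type}
    [CommRing R] (V : Vd B R) (w : Q → R) : Prop :=
  ∀ (X X' : TW B) (n : ℕ), n ≤ Λ → FWin H.up (2 * k) (FN H) t₀ x s₁ s₂ X n →
    Ver H.up X X' n ((H.up.U ^ t₀) s₂) → dvolw V w X X' = 0

variable [DecidableEq Q] {H : HypN B a t b eps D u i j k} [NeZero (i + j)] [Fintype D]

/-- The puzzle of the tube. -/
def famN (X : ClsW H.up (gN D u (i + j)) H.inj (2 * k) (RgN (i + j) k D)) [DecidableEq D] :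
    FamW (Fin (i + j) × D) (RgN (i + j) k D) H.up ((u ^ (i + j)) ^ k) where
  g := gN D u (i + j)
  inj := H.inj
  e := 2 * k
  he := by have := H.kpos; omega
  per := H.per
  lev := X.lev
  lev_lt := X.lev_lt
  H := X.H
  x := X.x
  y := X.y
  tau := X.tau
  W := X.W
  L₀ := X.L₀
  L₁ := X.L₁
  u₀ := X.u₀
  u₁ := X.u₁
  w₀ := X.w₀
  w₁ := X.w₁
  reg := X.reg

/-- The bound for the windows and for the flips. -/
noncomputable def lamN (e k : ℕ) : ℕ := 6 * ((e * k ^ 2 + 1) * (e * k + 1) ^ (e * k) + 1) * (2 * k + hN e k) + 2 * k * k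

end win

/-- WINN and FLIPN: windows exist; without flips the volumes of the rungs are exact (volume `o` on the vertical edges), and
`chi` is constant on the component if `w` is a translation `≠ 0`. Copy of `SQ4/E/FlipP.lean`, `FlipR.lean` (`realACw`,
`realBEKw`, `flipAK`, `flipBK`) for one class. All strands are there: the start is the state `st₁ f` itself. -/
def FlipNS : Prop :=
  ∀ (Q : Type) [Group Q] [DecidableEq Q] (B : Lb.{0, 0} Q) (a t b : B.L) (eps : Q →* ℤˣ) (D : Subgroup Q) (u : Q)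
    (i j k : ℕ) (H : HypN B a t b eps D u i j k) [NeZero (i + j)] [Fintype D] [DecidableEq D]
    (X : ClsW H.up (gN D u (i + j)) H.inj (2 * k) (RgN (i + j) k D)), IsN H X (hN (i + j) k) →
    ∀ (f g : RgN (i + j) k D) (l₀ : Fin (i + j) × D), (famN X).puz.Adj g f l₀ →
    ∀ (A : Fin (i + j) × D → Prop) [DecidablePred A] (hc : (famN X).Clo A fun r => A r.1), A l₀ →
      SQ4.SCon hc.puz → hc.puz.HypK (fun _ => True) → (∀ v, {r | hc.puz.On r v}.ncard = 2 * k) →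
      (∃ (Y : TW B) (n : ℕ), n ≤ lamN (i + j) k ∧
        FWin H.up (2 * k) (FN H) (X.lev f) (gN D u (i + j) l₀) (gN D u (i + j) ((famN X).puz.oth f l₀))
          (gN D u (i + j) ((famN X).puz.oth g l₀)) Y n) ∧
      ∀ (p : ℕ) (_ : Fact p.Prime), 4 * (i + j) * k < p → ∀ (V : Vd B (ZMod p)) (ω : Q → ZMod p), V.chi u = 1 →
        (∀ y, ω (H.up.U y) = ω y) →
        ω (gN D u (i + j) l₀) + ω (gN D u (i + j) ((famN X).puz.oth f l₀)) = 0 →
        (∑ v : Fin (i + j) × D, if A v then ω (gN D u (i + j) v) else 0) ≠ 0 →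
        NoFlN H (X.lev f) (gN D u (i + j) l₀) (gN D u (i + j) ((famN X).puz.oth f l₀))
          (gN D u (i + j) ((famN X).puz.oth g l₀)) (lamN (i + j) k) V ω →
        (∀ υ υ' o : ZMod p, (∀ y, (evA V eps υ υ').e y (H.up.up y) = o) →
          ∃ Φ : Fin (i + j) × D → ZMod p, ∀ r : RgN (i + j) k D, A r.1 →
            (evA V eps υ υ').e (gN D u (i + j) r.1 * (B.q a * (B.q b)⁻¹) ^ (r.2 : ℕ)) t + drN i r.1 o =
              Φ (yN (i + j) H.wD H.pD i k r) - Φ r.1) ∧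
        (V.chi (B.q a * (B.q b)⁻¹) = 1 → nuW V a b ≠ 0 → ∀ r : RgN (i + j) k D, A r.1 →
          V.chi (gN D u (i + j) r.1) = V.chi (gN D u (i + j) (yN (i + j) H.wD H.pD i k r)))

/-- TREEN: the tree of the lines (`SQ4.TreeAbsS`; the lines are connected by rungs, and `u` maps every line to itself). -/
def TreeNS : Prop :=
  ∀ (Q : Type) [Group Q] (B : Lb.{0, 0} Q) (a t b : B.L) (eps : Q →* ℤˣ) (D : Subgroup Q) (u : Q)
    (i j k : ℕ) (H : HypN B a t b eps D u i j k) [NeZero (i + j)] [Fintype D],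
    3 ≤ (Subgroup.zpowers (B.q a * (B.q b)⁻¹)).relIndex eps.ker →
    ∃ (d cl : Q → Bool) (N : ℕ) (x s₁ s₂ : Fin N → Fin (i + j) × D) (rk : Fin N → ℕ), 0 < N ∧ N ≤ k ∧
      (∀ y, d (H.up.U y) = d y) ∧ (∀ y, cl (H.up.U y) = cl y) ∧
      (∀ n, d (gN D u (i + j) (s₁ n)) = !d (gN D u (i + j) (x n))) ∧
      (∀ n, d (gN D u (i + j) (s₂ n)) = !d (gN D u (i + j) (x n))) ∧
      (∀ n, cl (gN D u (i + j) (x n)) = false) ∧
      TreeK (lnU H.up) cl (fun n => gN D u (i + j) (x n)) (fun n => gN D u (i + j) (s₁ n))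
        (fun n => gN D u (i + j) (s₂ n)) rk ∧
      (∀ n, JnN (i + j) H.wD H.pD i k (x n) (s₁ n)) ∧ (∀ n, JnN (i + j) H.wD H.pD i k (x n) (s₂ n)) ∧
      ∀ γ : Bool, (∃ y, cl y = γ) → ∀ (p : ℕ) (_ : Fact p.Prime), 4 * (i + j) * k < p →
        (∑ δ : D, (wcl cl d γ (δ : Q) : ZMod p)) ≠ 0

/-- The condition on the voltages at a prime: (good) `w` is a translation and `p` is not; (bad) `w` is a reflection, `p` or
`q` a translation, and the letters are not those of a complement; (third type) all letters are reflections and the relation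
of the heights fails. -/
def KapN {Q : Type} [Group Q] {B : Lb.{0, 0} Q} {R : Type} [CommRing R] (V : Vd B R) (a t b : B.L) (i j : ℕ) : Prop :=
  (V.chi (B.q a * (B.q b)⁻¹) = 1 ∧ nuW V a b ≠ 0 ∧ V.chi (B.q a * (B.q t)⁻¹) ≠ 1) ∨
    ((V.chi (B.q a * (B.q t)⁻¹) = 1 ∨ V.chi (B.q t * (B.q b)⁻¹) = 1) ∧ (V.chi (B.q a * (B.q b)⁻¹) - 1) ≠ 0 ∧
      ¬ ∃ y y' : R, V.n a + V.chi (B.q a) * y' = y ∧ V.n t + V.chi (B.q t) * y' = y ∧
        V.n b + V.chi (B.q b) * y' = y) ∨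
    (V.chi (B.q a) = -1 ∧ V.chi (B.q t) = -1 ∧ V.chi (B.q b) = -1 ∧
      (j : R) * (V.n a - V.n t) ≠ (i : R) * (V.n t - V.n b))

/-- The order that we need. -/
noncomputable def needN (e k r : ℕ) : ℕ :=
  4 * (k + 1) * ((e + 1) * (k + 1) * ((2 * r) ^ 2 * lamN e k + lamN e k + 2)) ^ 2

/-- HEARTN (from CLSN, GRAPH, EXA, WSUM, FLIPN, TREEN and HEARTU). -/
def HeartNS : Prop :=
  ∀ (Q : Type) [Group Q] [Fintype Q] (B : Lb.{0, 0} Q) (a t b : B.L) (eps : Q →* ℤˣ) (D : Subgroup Q) (u : Q)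
    (i j k : ℕ) (_ : HypN B a t b eps D u i j k),
    3 ≤ (Subgroup.zpowers (B.q a * (B.q b)⁻¹)).relIndex eps.ker →
    (B.q a * (B.q t)⁻¹) * (B.q t * (B.q b)⁻¹) ≠ (B.q t * (B.q b)⁻¹) * (B.q a * (B.q t)⁻¹) →
      ∀ (m : ℕ) (V : Vd B (ZMod m)), Odd m → V.chi u = 1 →
        (∀ p ∈ m.primeFactors, 4 * (i + j) * k < p ∧ 2 * m.primeFactors.card < p) →
        (∀ p, ∀ hp : p ∈ m.primeFactors, KapN (V.map (red (Nat.dvd_of_mem_primeFactors hp))) a t b i j) →
        needN (i + j) k m.primeFactors.card < orderOf u →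
        ∃ T : TourS B Bool, ∀ γ : Bool, (∃ x, T.cls x = γ) → IsUnit (T.vol V γ)

/-! ### Groups -/

/-- Three involutions which generate `G`. -/
structure InvG {G : Type} [Group G] (eps : G →* ℤˣ) (a t b : G) : Prop where
  ea : eps a = -1
  et : eps t = -1
  eb : eps b = -1
  ia : a * a = 1
  it : t * t = 1
  ib : b * b = 1
  gen : Subgroup.closure {a, t, b} = ⊤

/-- The set of letters. -/
def AN {G : Type} (a t b : G) : Set G := {a, t, b}

theorem InvG.sym {G : Type} [Group G] {eps : G →* ℤˣ} {a t b : G} (h : InvG eps a t b) :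
    ∀ x ∈ AN a t b, x⁻¹ ∈ AN a t b := by
  rintro x (rfl | rfl | rfl)
  · rw [inv_eq_of_mul_eq_one_right h.ia]; exact Or.inl rfl
  · rw [inv_eq_of_mul_eq_one_right h.it]; exact Or.inr (Or.inl rfl)
  · rw [inv_eq_of_mul_eq_one_right h.ib]; exact Or.inr (Or.inr rfl)

/-- The value of the relation of the heights. -/
def relN {G : Type} [Group G] (a t b : G) (m n : ℕ) : G := (a * t) ^ m * ((t * b) ^ n)⁻¹

/-- The voltages: `C` (of `GN`) and the part of `N` where the relation `(a t) ^ m = (t b) ^ n` fails, `0 < m, n ≤ τ`. -/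
structure NearG {G : Type} [Group G] (N C C₁ : Subgroup G) (eps : G →* ℤˣ) (k P : ℕ) (a t b : G) (τ m n : ℕ) : Prop
    extends InvG eps a t b where
  gn : GN N C eps k P
  le : C ≤ C₁
  leN : C₁ ≤ N
  nP : ¬ P ∣ Nat.card C₁
  bigN : ∀ p ∈ (Nat.card N).primeFactors, 8 * τ * k < p
  mpos : 0 < m
  mle : m ≤ τ
  npos : 0 < n
  nle : n ≤ τ
  rel : relN a t b m n ∈ C₁
  fail : ∀ p ∈ (Nat.card C₁).primeFactors, ¬ p ∣ Nat.card C → p ∣ orderOf (relN a t b m n)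

/-- C1N: the choice of `C₁ = C ⊔ ⟨relN a t b (m k) (n k)⟩` (`relN a t b (m k) (n k) ∈ N` because `N` has index `k`; modulo
the part of `N` prime to `P` the kernel of `eps` is `Z_P × D`). -/
def C1NS : Prop :=
  ∀ (G : Type) [Group G] [Finite G] (N C : Subgroup G) (eps : G →* ℤˣ) (k P : ℕ), GN N C eps k P →
    ∀ (a t b : G) (τ m n : ℕ), InvG eps a t b → 0 < m → m ≤ τ → 0 < n → n ≤ τ → ¬ P ∣ orderOf (relN a t b m n) →
      (∀ p ∈ (Nat.card N).primeFactors, 8 * (τ * k) * k < p) →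
      ∃ C₁ : Subgroup G, NearG N C C₁ eps k P a t b (τ * k) (m * k) (n * k)

/-- DSTRN: `Q = G / C₁`. (`Q₊ = N / C₁ × D`; `i`, `j` = `n`, `m` divided by their gcd; `u` = a generator of `N / C₁`.) -/
def DstrNS : Prop :=
  ∀ (G : Type) [Group G] [Finite G] (N C C₁ : Subgroup G) (eps : G →* ℤˣ) (k P : ℕ)
    (a t b : G) (τ m n : ℕ) (h : NearG N C C₁ eps k P a t b τ m n),
      800 * k ^ 3 * τ ^ 3 < P → ∀ (_ : C₁.Normal) (h1 : ∀ g ∈ AN a t b, g ∈ C₁ → g = 1),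
      ∃ (D : Subgroup (G ⧸ C₁)) (u₀ : G) (i j : ℕ) (eps' : G ⧸ C₁ →* ℤˣ),
        (∀ g, eps' (QuotientGroup.mk' C₁ g) = eps g) ∧ u₀ ∈ N ∧ i ≤ τ ∧ j ≤ τ ∧ m * i = n * j ∧ i.Coprime j ∧
        P ∣ orderOf (QuotientGroup.mk' C₁ u₀) ∧
        ∀ a' t' b' : (qLb C₁ (AN a t b) h.sym h1).L, a'.1 = a → t'.1 = t → b'.1 = b →
          HypN (qLb C₁ (AN a t b) h.sym h1) a' t' b' eps' D (QuotientGroup.mk' C₁ u₀) i j k

/-- KAPN (`s`, `z`, `chi`, `ν` come from HDATA for `C₁`). Every letter is an involution, so `chi = ± 1` on it, and a letter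
with `chi = 1` has `n = 0`; for the primes of `C` exactly one or two of the letters invert `C_p`; for the other primes of
`C₁` all letters invert and `fail` gives the third type. -/
def KapNS : Prop :=
  ∀ (G : Type) [Group G] [Finite G] (N C C₁ : Subgroup G) (eps : G →* ℤˣ) (k P : ℕ)
    (a t b : G) (τ m n : ℕ) (h : NearG N C C₁ eps k P a t b τ m n) (i j : ℕ), m * i = n * j → i.Coprime j →
    ∀ (_ : C₁.Normal) (h1 : ∀ g ∈ AN a t b, g ∈ C₁ → g = 1)
    (a' t' b' : (qLb C₁ (AN a t b) h.sym h1).L), a'.1 = a → t'.1 = t → b'.1 = b →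
    ∀ (s : G ⧸ C₁ →* G) (z : G) (chi : G ⧸ C₁ →* ZMod (Nat.card C₁)) (ν : G → ZMod (Nat.card C₁)),
    (∀ q, QuotientGroup.mk' C₁ (s q) = q) → Subgroup.zpowers z = C₁ → orderOf z = Nat.card C₁ →
    (∀ q, s q * z * (s q)⁻¹ = z ^ (chi q).val) → (∀ g, g = z ^ (ν g).val * s (QuotientGroup.mk' C₁ g)) →
    ∀ (V : Vd (qLb C₁ (AN a t b) h.sym h1) (ZMod (Nat.card C₁))), V.chi = chi → (∀ g, V.n g = ν g.1) →
    ∀ p, ∀ hp : p ∈ (Nat.card C₁).primeFactors,
      KapN (V.map (red (Nat.dvd_of_mem_primeFactors hp))) a' t' b' i j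

/-- SMALLN: at most two lines (helper49's `twoLines`). -/
def SmallNS : Prop :=
  ∃ c₀ : ℕ, ∀ (G : Type) [Group G] [Finite G] (N C : Subgroup G) (eps : G →* ℤˣ) (k P : ℕ), GN N C eps k P →
    ∀ (a t b : G), InvG eps a t b → (Subgroup.zpowers (a * b) ⊔ N).relIndex eps.ker ≤ 2 →
      2 ^ ((k + (Nat.card G).primeFactorsList.length) ^ c₀) ≤ P → Lst (AN a t b)

/-- NEARN: three involutions, near. -/
def NearNS : Prop :=
  ∃ c₀ : ℕ, ∀ (G : Type) [Group G] [Finite G] (N C : Subgroup G) (eps : G →* ℤˣ) (k P : ℕ), GN N C eps k P →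
    ∀ (a t b : G) (τ m n : ℕ), InvG eps a t b → 0 < m → m ≤ τ → 0 < n → n ≤ τ → ¬ P ∣ orderOf (relN a t b m n) →
      (∀ p ∈ (Nat.card N).primeFactors, 8 * (τ * k) * k < p) →
      (a * t) * (t * b) * (a * t)⁻¹ * (t * b)⁻¹ ∉ N →
      2 ^ ((k + τ + (Nat.card G).primeFactorsList.length) ^ c₀) ≤ P → Lst (AN a t b)

end Pool.Agent.Lib.MP_688fd0_co.SQ5.N
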